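import Mathlib

/-!
# A norm on the Hilbert space built from restrictions
-/

open Set Filter Topology
open scoped ENNReal

namespace Pool.Agent.R278.Equi

/-- The Hilbert space. -/
abbrev L2 (Γ : Type) := lp (fun _ : Γ => ℝ) 2

variable {Γ : Type}

theorem summable_sq (x : L2 Γ) : Summable (fun γ => (x γ) ^ 2) := by
  have h := (lp.memℓp x).summable (by norm_num)
  simpa using h

theorem norm_sq_eq (x : L2 Γ) : ‖x‖ ^ 2 = ∑' γ, (x γ) ^ 2 := by
  have h := lp.norm_rpow_eq_tsum (p := 2) (by norm_num) x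
  simpa using h

theorem memℓp_of_summable {f : Γ → ℝ} (h : Summable (fun γ => (f γ) ^ 2)) :
    Memℓp (E := fun _ : Γ => ℝ) f 2 := by
  apply memℓp_gen
  simpa using h

open Classical in
/-- Restriction to a set. -/
noncomputable def R (S : Set Γ) : L2 Γ →ₗ[ℝ] L2 Γ where
  toFun x := ⟨fun γ => if γ ∈ S then x γ else 0, memℓp_of_summable (by
    refine (summable_sq x).of_nonneg_of_le (fun γ => sq_nonneg _) (fun γ => ?_)
    split_ifs
    · exact le_rfl
    · simpa using sq_nonneg (x γ))⟩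
  map_add' x y := by
    apply lp.ext
    funext γ
    change (if γ ∈ S then (x + y : L2 Γ) γ else 0) =
      (if γ ∈ S then x γ else 0) + (if γ ∈ S then y γ else 0)
    rw [lp.coeFn_add, Pi.add_apply]
    split_ifs <;> simp
  map_smul' c x := by
    apply lp.ext
    funext γ
    change (if γ ∈ S then (c • x : L2 Γ) γ else 0) = c * (if γ ∈ S then x γ else 0)
    rw [lp.coeFn_smul, Pi.smul_apply, smul_eq_mul]
    split_ifs <;> simp

open Classical in
theorem R_apply (S : Set Γ) (x : L2 Γ) (γ : Γ) : R S x γ = if γ ∈ S then x γ else 0 := rfl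

theorem R_apply_mem {S : Set Γ} (x : L2 Γ) {γ : Γ} (h : γ ∈ S) : R S x γ = x γ := by
  classical
  rw [R_apply, if_pos h]

theorem R_apply_notMem {S : Set Γ} (x : L2 Γ) {γ : Γ} (h : γ ∉ S) : R S x γ = 0 := by
  classical
  rw [R_apply, if_neg h]

theorem R_univ (x : L2 Γ) : R Set.univ x = x := by
  apply lp.ext
  funext γ
  exact R_apply_mem x (Set.mem_univ γ)

theorem norm_R_le (S : Set Γ) (x : L2 Γ) : ‖R S x‖ ≤ ‖x‖ := by
  classical
  rw [← abs_of_nonneg (norm_nonneg (R S x)), ← abs_of_nonneg (norm_nonneg x), ← sq_le_sq,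
    norm_sq_eq, norm_sq_eq]
  apply (summable_sq _).tsum_le_tsum _ (summable_sq x)
  intro γ
  rw [R_apply]
  split_ifs
  · exact le_rfl
  · simpa using sq_nonneg (x γ)

theorem abs_apply_le (x : L2 Γ) (γ : Γ) : |x γ| ≤ ‖x‖ :=
  lp.norm_apply_le_norm (by norm_num) x γ

/-- Pythagoras for vectors with disjoint supports. -/
theorem norm_add_sq_of_disjoint {x y : L2 Γ} (h : ∀ γ, x γ = 0 ∨ y γ = 0) :
    ‖x + y‖ ^ 2 = ‖x‖ ^ 2 + ‖y‖ ^ 2 := by
  rw [norm_sq_eq, norm_sq_eq, norm_sq_eq, ← (summable_sq x).tsum_add (summable_sq y)]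
  congr 1
  funext γ
  rw [lp.coeFn_add, Pi.add_apply]
  rcases h γ with h | h <;> rw [h] <;> ring

theorem norm_R_triple (S : Set Γ) {v x y : L2 Γ} (h1 : ∀ γ, v γ = 0 ∨ x γ = 0)
    (h2 : ∀ γ, v γ = 0 ∨ y γ = 0) (h3 : ∀ γ, x γ = 0 ∨ y γ = 0) :
    ‖R S (v + x - y)‖ = Real.sqrt (‖R S v‖ ^ 2 + ‖R S x‖ ^ 2 + ‖R S y‖ ^ 2) := by
  classical
  rw [← Real.sqrt_sq (norm_nonneg (R S (v + x - y)))]
  congr 1
  have e1 : R S (v + x - y) = (R S v + R S x) + (- R S y) := by
    rw [map_sub, map_add, sub_eq_add_neg]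
  rw [e1, norm_add_sq_of_disjoint, norm_add_sq_of_disjoint, norm_neg]
  · intro γ
    rw [R_apply, R_apply]
    rcases h1 γ with h | h <;> rw [h] <;> simp
  · intro γ
    rw [lp.coeFn_add, lp.coeFn_neg, Pi.add_apply, Pi.neg_apply, R_apply, R_apply, R_apply]
    by_cases hγ : γ ∈ S
    · rw [if_pos hγ, if_pos hγ, if_pos hγ]
      rcases h3 γ with h | h
      · rcases h2 γ with h' | h'
        · left
          rw [h, h', add_zero]
        · right
          rw [h', neg_zero]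
      · right
        rw [h, neg_zero]
    · left
      rw [if_neg hγ, if_neg hγ, add_zero]

/-- The new norm. -/
noncomputable def N (S : ℕ → Set Γ) (x : L2 Γ) : ℝ := ∑' n, (1 / 2 : ℝ) ^ n * ‖R (S n) x‖

theorem summable_N (S : ℕ → Set Γ) (x : L2 Γ) :
    Summable (fun n => (1 / 2 : ℝ) ^ n * ‖R (S n) x‖) := by
  have h : Summable (fun n : ℕ => (1 / 2 : ℝ) ^ n * ‖x‖) :=
    (summable_geometric_two).mul_right _
  refine h.of_nonneg_of_le (fun n => by positivity) (fun n => ?_)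
  exact mul_le_mul_of_nonneg_left (norm_R_le _ x) (by positivity)

theorem N_le (S : ℕ → Set Γ) (x : L2 Γ) : N S x ≤ 2 * ‖x‖ := by
  have h : Summable (fun n : ℕ => (1 / 2 : ℝ) ^ n * ‖x‖) :=
    (summable_geometric_two).mul_right _
  calc N S x ≤ ∑' n : ℕ, (1 / 2 : ℝ) ^ n * ‖x‖ := by
        apply (summable_N S x).tsum_le_tsum _ h
        intro n
        exact mul_le_mul_of_nonneg_left (norm_R_le _ x) (by positivity)
    _ = 2 * ‖x‖ := by rw [tsum_mul_right, tsum_geometric_two]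

theorem term_le_N (S : ℕ → Set Γ) (x : L2 Γ) (n : ℕ) :
    (1 / 2 : ℝ) ^ n * ‖R (S n) x‖ ≤ N S x :=
  (summable_N S x).le_tsum n (fun j _ => by positivity)

theorem le_N {S : ℕ → Set Γ} (hS : S 0 = Set.univ) (x : L2 Γ) : ‖x‖ ≤ N S x := by
  have h := term_le_N S x 0
  rwa [hS, R_univ, pow_zero, one_mul] at h

theorem N_add (S : ℕ → Set Γ) (x y : L2 Γ) : N S (x + y) ≤ N S x + N S y := by
  rw [N, N, N, ← (summable_N S x).tsum_add (summable_N S y)]
  apply (summable_N S _).tsum_le_tsum _ ((summable_N S x).add (summable_N S y))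
  intro n
  rw [map_add, ← mul_add]
  exact mul_le_mul_of_nonneg_left (norm_add_le _ _) (by positivity)

theorem N_smul (S : ℕ → Set Γ) (a : ℝ) (x : L2 Γ) : N S (a • x) = |a| * N S x := by
  rw [N, N, ← tsum_mul_left]
  congr 1
  funext n
  rw [map_smul, norm_smul, Real.norm_eq_abs]
  ring

theorem N_neg (S : ℕ → Set Γ) (x : L2 Γ) : N S (-x) = N S x := by
  have h := N_smul S (-1) x
  rwa [neg_one_smul, abs_neg, abs_one, one_mul] at h

theorem abs_N_sub_le (S : ℕ → Set Γ) (x y : L2 Γ) : |N S x - N S y| ≤ 2 * ‖x - y‖ := by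
  rw [abs_le]
  constructor
  · have h1 := N_add S x (y - x)
    rw [add_sub_cancel] at h1
    have h2 := N_le S (y - x)
    rw [norm_sub_rev] at h2
    linarith
  · have h1 := N_add S y (x - y)
    rw [add_sub_cancel] at h1
    have h2 := N_le S (x - y)
    linarith

end Pool.Agent.R278.Equi
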