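import Pool.Agent.R278.Equi.Omega
import Pool.Agent.R278.Equi.Norm

/-!
# No uncountable equilateral sets
-/

open Set Filter Topology Cardinal
open scoped ENNReal

namespace Pool.Agent.R278.Equi

variable {Γ : Type} [DecidableEq Γ]

/-- The finite sections of a vector. -/
theorem hasSum_single (x : L2 Γ) :
    HasSum (fun γ => (lp.single 2 γ (x γ) : L2 Γ)) x :=
  lp.hasSum_single (by norm_num) x

theorem single_apply (γ γ' : Γ) (c : ℝ) :
    (lp.single 2 γ c : L2 Γ) γ' = if γ' = γ then c else 0 := by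
  rw [lp.single_apply]
  by_cases h : γ' = γ
  · subst h
    simp
  · simp [h]

theorem single_eq_smul (γ : Γ) (c : ℝ) :
    (lp.single 2 γ c : L2 Γ) = c • (lp.single 2 γ (1 : ℝ) : L2 Γ) := by
  apply lp.ext
  funext γ'
  rw [lp.coeFn_smul, Pi.smul_apply, single_apply, single_apply]
  split_ifs <;> simp

theorem sum_single_apply (F : Finset Γ) (x : Γ → ℝ) (γ : Γ) :
    (∑ i ∈ F, (lp.single 2 i (x i) : L2 Γ)) γ = if γ ∈ F then x γ else 0 := by
  rw [lp.coeFn_sum, Finset.sum_apply]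
  simp only [single_apply]
  rw [Finset.sum_ite_eq F γ x]

omit [DecidableEq Γ] in
theorem isSeparable_supported {G : Set Γ} (hG : G.Countable) :
    TopologicalSpace.IsSeparable {x : L2 Γ | ∀ γ, γ ∉ G → x γ = 0} := by
  classical
  have h1 : TopologicalSpace.IsSeparable
      ((fun γ => (lp.single 2 γ (1 : ℝ) : L2 Γ)) '' G) := (hG.image _).isSeparable
  have h2 := (TopologicalSpace.IsSeparable.span (R := ℝ) h1).closure
  refine h2.mono ?_
  intro x hx
  have h3 := hasSum_single x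
  refine mem_closure_of_tendsto h3 (Eventually.of_forall (fun F => ?_))
  apply Submodule.sum_mem
  intro γ _
  by_cases hγ : γ ∈ G
  · rw [single_eq_smul]
    exact Submodule.smul_mem _ _ (Submodule.subset_span ⟨γ, hγ, rfl⟩)
  · rw [hx γ hγ, lp.single_zero]
    exact Submodule.zero_mem _

/-- The union of the supports of the earlier vectors. -/
def G (y : Om → L2 Γ) (α : Om) : Set Γ := {γ | ∃ ξ < α, y ξ γ ≠ 0}

omit [DecidableEq Γ] in
theorem G_mono (y : Om → L2 Γ) {α β : Om} (h : α ≤ β) : G y α ⊆ G y β := by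
  rintro γ ⟨ξ, h1, h2⟩
  exact ⟨ξ, h1.trans_le h, h2⟩

omit [DecidableEq Γ] in
theorem G_countable (y : Om → L2 Γ) (α : Om) : (G y α).Countable := by
  have h1 : G y α ⊆ ⋃ ξ ∈ Set.Iio α, Function.support (fun γ => (y ξ γ) ^ 2) := by
    rintro γ ⟨ξ, h1, h2⟩
    rw [Set.mem_iUnion₂]
    refine ⟨ξ, h1, ?_⟩
    rw [Function.mem_support]
    positivity
  refine Set.Countable.mono h1 ((countable_Iio α).biUnion (fun ξ _ => ?_))
  exact (summable_sq (y ξ)).countable_support

/-- The old part. -/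
noncomputable def wv (y : Om → L2 Γ) (α : Om) : L2 Γ := R (G y α) (y α)

/-- The new part. -/
noncomputable def zv (y : Om → L2 Γ) (α : Om) : L2 Γ := R (G y α)ᶜ (y α)

omit [DecidableEq Γ] in
theorem wv_add_zv (y : Om → L2 Γ) (α : Om) : wv y α + zv y α = y α := by
  apply lp.ext
  funext γ
  rw [lp.coeFn_add, Pi.add_apply, wv, zv]
  by_cases h : γ ∈ G y α
  · rw [R_apply_mem _ h, R_apply_notMem _ (by simpa using h), add_zero]
  · rw [R_apply_notMem _ h, R_apply_mem _ h, zero_add]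

omit [DecidableEq Γ] in
theorem wv_zero (y : Om → L2 Γ) {α : Om} {γ : Γ} (h : γ ∉ G y α) : wv y α γ = 0 :=
  R_apply_notMem _ h

omit [DecidableEq Γ] in
theorem zv_zero (y : Om → L2 Γ) {α : Om} {γ : Γ} (h : γ ∈ G y α) : zv y α γ = 0 :=
  R_apply_notMem _ (by simpa using h)

omit [DecidableEq Γ] in
theorem zv_zero' (y : Om → L2 Γ) {α β : Om} (hαβ : α < β) {γ : Γ} (h : γ ∉ G y β) :
    zv y α γ = 0 := by
  have h1 : y α γ = 0 := by
    by_contra hne
    exact h ⟨α, hαβ, hne⟩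
  rw [zv]
  by_cases h2 : γ ∈ (G y α)ᶜ
  · rw [R_apply_mem _ h2, h1]
  · exact R_apply_notMem _ h2

/-- The type of a vector of the family. -/
noncomputable def uv (S : ℕ → Set Γ) (y : Om → L2 Γ) (α : Om) : L2 Γ × (ℕ → ℝ) :=
  (wv y α, fun n => ‖R (S n) (zv y α)‖)

omit [DecidableEq Γ] in
theorem exists_good_uv (S : ℕ → Set Γ) (y : Om → L2 Γ) (γ0 : Om) :
    ∃ α, γ0 < α ∧ ∀ γ, uv S y α ∈ closure (uv S y '' Set.Ioi γ) := by
  classical
  apply exists_good (uv S y)
    (fun ξ => {x : L2 Γ | ∀ γ, γ ∉ G y ξ → x γ = 0} ×ˢ (Set.univ : Set (ℕ → ℝ)))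
  · intro ξ
    exact (isSeparable_supported (G_countable y ξ)).prod
      (TopologicalSpace.IsSeparable.of_separableSpace _)
  · intro ξ α hξ h1 h2
    have h3 : Tendsto (fun F : Finset Γ =>
        ((∑ i ∈ F, (lp.single 2 i (wv y α i) : L2 Γ), fun n => ‖R (S n) (zv y α)‖) :
          L2 Γ × (ℕ → ℝ))) atTop (𝓝 (uv S y α)) :=
      (hasSum_single (wv y α)).prodMk_nhds tendsto_const_nhds
    refine mem_closure_of_tendsto h3 (Eventually.of_forall (fun F => ?_))
    -- find the stage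
    have h4 : ∀ γ ∈ F, ∃ n, wv y α γ ≠ 0 → γ ∈ G y (ξ n) := by
      intro γ _
      by_cases hγ : wv y α γ = 0
      · exact ⟨0, fun h => absurd hγ h⟩
      · have h5 : γ ∈ G y α := by
          by_contra h
          exact hγ (wv_zero y h)
        obtain ⟨η, hη, hη2⟩ := h5
        obtain ⟨n, hn⟩ := h2 η hη
        exact ⟨n, fun _ => ⟨η, hn, hη2⟩⟩
    choose! nf hnf using h4
    refine Set.mem_iUnion.2 ⟨F.sup nf, ?_, Set.mem_univ _⟩
    intro γ hγ
    change (∑ i ∈ F, (lp.single 2 i (wv y α i) : L2 Γ)) γ = 0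
    rw [sum_single_apply]
    split_ifs with hF
    · by_contra hne
      apply hγ
      exact G_mono y (hξ.monotone (Finset.le_sup hF)) (hnf γ hF hne)
    · rfl

omit [DecidableEq Γ] in
/-- The basic limit formula. -/
theorem limit_formula {S : ℕ → Set Γ} (hS : S 0 = Set.univ) {y : Om → L2 Γ} {δ : ℝ}
    (hy : ∀ α β, α < β → N S (y α - y β) = δ) {α α' : Om}
    (hα : ∀ γ, uv S y α ∈ closure (uv S y '' Set.Ioi γ))
    (hα' : ∀ γ, uv S y α' ∈ closure (uv S y '' Set.Ioi γ)) :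
    δ = ∑' n, (1 / 2 : ℝ) ^ n * Real.sqrt (‖R (S n) (wv y α - wv y α')‖ ^ 2 +
      ‖R (S n) (zv y α)‖ ^ 2 + ‖R (S n) (zv y α')‖ ^ 2) := by
  -- sequences
  obtain ⟨xa, hxa1, hxa2⟩ := mem_closure_iff_seq_limit.1 (hα (max α α'))
  choose a ha1 ha2 using hxa1
  obtain ⟨g, hg⟩ := exists_bound (Set.range a) (Set.countable_range a)
  obtain ⟨xb, hxb1, hxb2⟩ := mem_closure_iff_seq_limit.1 (hα' g)
  choose b hb1 hb2 using hxb1
  have hta : Tendsto (fun k => uv S y (a k)) atTop (𝓝 (uv S y α)) := by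
    have : (fun k => uv S y (a k)) = xa := funext ha2
    rw [this]
    exact hxa2
  have htb : Tendsto (fun k => uv S y (b k)) atTop (𝓝 (uv S y α')) := by
    have : (fun k => uv S y (b k)) = xb := funext hb2
    rw [this]
    exact hxb2
  have hab : ∀ k, a k < b k := fun k => (hg _ ⟨k, rfl⟩).trans (hb1 k)
  have hwa : Tendsto (fun k => wv y (a k)) atTop (𝓝 (wv y α)) :=
    (continuous_fst.tendsto _).comp hta
  have hwb : Tendsto (fun k => wv y (b k)) atTop (𝓝 (wv y α')) :=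
    (continuous_fst.tendsto _).comp htb
  have hza : ∀ n, Tendsto (fun k => ‖R (S n) (zv y (a k))‖) atTop
      (𝓝 ‖R (S n) (zv y α)‖) := fun n =>
    (((continuous_apply n).comp continuous_snd).tendsto (uv S y α)).comp hta
  have hzb : ∀ n, Tendsto (fun k => ‖R (S n) (zv y (b k))‖) atTop
      (𝓝 ‖R (S n) (zv y α')‖) := fun n =>
    (((continuous_apply n).comp continuous_snd).tendsto (uv S y α')).comp htb
  set v := wv y α - wv y α' with hv
  let x : ℕ → L2 Γ := fun k => v + zv y (a k) - zv y (b k)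
  have hdiff : ∀ k, y (a k) - y (b k) - x k = wv y (a k) - wv y (b k) - v := by
    intro k
    have e1 := wv_add_zv y (a k)
    have e2 := wv_add_zv y (b k)
    calc y (a k) - y (b k) - x k
        = (wv y (a k) + zv y (a k)) - (wv y (b k) + zv y (b k)) -
          (v + zv y (a k) - zv y (b k)) := by rw [e1, e2]
      _ = wv y (a k) - wv y (b k) - v := by abel
  have hN : Tendsto (fun k => N S (x k)) atTop (𝓝 δ) := by
    have h1 : Tendsto (fun k => wv y (a k) - wv y (b k) - v) atTop (𝓝 0) := by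
      have := (hwa.sub hwb).sub_const v
      rwa [hv, sub_self] at this
    have h2 : Tendsto (fun k => 2 * ‖wv y (a k) - wv y (b k) - v‖) atTop (𝓝 0) := by
      simpa using h1.norm.const_mul 2
    rw [tendsto_iff_norm_sub_tendsto_zero]
    refine squeeze_zero (fun k => norm_nonneg _) (fun k => ?_) h2
    rw [← hdiff k, ← hy (a k) (b k) (hab k), Real.norm_eq_abs, abs_sub_comm]
    exact abs_N_sub_le S _ _
  -- disjointness
  have hd1 : ∀ k γ, v γ = 0 ∨ zv y (a k) γ = 0 := by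
    intro k γ
    by_cases h : γ ∈ G y (a k)
    · exact Or.inr (zv_zero y h)
    · left
      have h1 : γ ∉ G y α := fun h' => h (G_mono y ((le_max_left _ _).trans (ha1 k).le) h')
      have h2 : γ ∉ G y α' := fun h' => h (G_mono y ((le_max_right _ _).trans (ha1 k).le) h')
      rw [hv, lp.coeFn_sub, Pi.sub_apply, wv_zero y h1, wv_zero y h2, sub_zero]
  have hd2 : ∀ k γ, v γ = 0 ∨ zv y (b k) γ = 0 := by
    intro k γ
    by_cases h : γ ∈ G y (b k)
    · exact Or.inr (zv_zero y h)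
    · left
      have h1 : γ ∉ G y α := fun h' =>
        h (G_mono y (((le_max_left _ _).trans (ha1 k).le).trans (hab k).le) h')
      have h2 : γ ∉ G y α' := fun h' =>
        h (G_mono y (((le_max_right _ _).trans (ha1 k).le).trans (hab k).le) h')
      rw [hv, lp.coeFn_sub, Pi.sub_apply, wv_zero y h1, wv_zero y h2, sub_zero]
  have hd3 : ∀ k γ, zv y (a k) γ = 0 ∨ zv y (b k) γ = 0 := by
    intro k γ
    by_cases h : γ ∈ G y (b k)
    · exact Or.inr (zv_zero y h)
    · exact Or.inl (zv_zero' y (hab k) h)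
  have hterm : ∀ n, Tendsto (fun k => (1 / 2 : ℝ) ^ n * ‖R (S n) (x k)‖) atTop
      (𝓝 ((1 / 2 : ℝ) ^ n * Real.sqrt (‖R (S n) v‖ ^ 2 +
      ‖R (S n) (zv y α)‖ ^ 2 + ‖R (S n) (zv y α')‖ ^ 2))) := by
    intro n
    have h1 : ∀ k, ‖R (S n) (x k)‖ = Real.sqrt (‖R (S n) v‖ ^ 2 +
        ‖R (S n) (zv y (a k))‖ ^ 2 + ‖R (S n) (zv y (b k))‖ ^ 2) := fun k =>
      norm_R_triple (S n) (hd1 k) (hd2 k) (hd3 k)
    simp only [h1]
    apply Tendsto.const_mul
    apply (Real.continuous_sqrt.tendsto _).comp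
    exact (tendsto_const_nhds.add ((hza n).pow 2)).add ((hzb n).pow 2)
  have hlim : Tendsto (fun k => ∑' n, (1 / 2 : ℝ) ^ n * ‖R (S n) (x k)‖) atTop
      (𝓝 (∑' n, (1 / 2 : ℝ) ^ n * Real.sqrt (‖R (S n) v‖ ^ 2 +
      ‖R (S n) (zv y α)‖ ^ 2 + ‖R (S n) (zv y α')‖ ^ 2))) := by
    apply tendsto_tsum_of_dominated_convergence (bound := fun n => (1 / 2 : ℝ) ^ n * (δ + 1))
    · exact (summable_geometric_two).mul_right _
    · exact hterm
    · filter_upwards [hN.eventually (gt_mem_nhds (lt_add_one δ))] with k hk n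
      rw [Real.norm_eq_abs, abs_of_nonneg (by positivity)]
      apply mul_le_mul_of_nonneg_left _ (by positivity)
      exact (norm_R_le _ _).trans ((le_N hS (x k)).trans hk.le)
  exact tendsto_nhds_unique hN hlim

theorem add_div_sqrt_two_le (a b : ℝ) : (a + b) / Real.sqrt 2 ≤ Real.sqrt (a ^ 2 + b ^ 2) := by
  rw [div_le_iff₀ (by positivity), ← Real.sqrt_mul (by positivity)]
  apply Real.le_sqrt_of_sq_le
  nlinarith [sq_nonneg (a - b)]

theorem add_div_sqrt_two_lt {a b : ℝ} (h : a ≠ b) :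
    (a + b) / Real.sqrt 2 < Real.sqrt (a ^ 2 + b ^ 2) := by
  rw [div_lt_iff₀ (by positivity), ← Real.sqrt_mul (by positivity)]
  apply Real.lt_sqrt_of_sq_lt
  have : 0 < (a - b) ^ 2 := by
    have : a - b ≠ 0 := sub_ne_zero.2 h
    positivity
  nlinarith

omit [DecidableEq Γ] in
/-- The norm has no uncountable equilateral set. -/
theorem no_equilateral {S : ℕ → Set Γ} (hS : S 0 = Set.univ)
    (hsep : ∀ (γ : Γ) (F : Finset Γ), γ ∉ F → ∃ n, γ ∈ S n ∧ ∀ φ ∈ F, φ ∉ S n)
    (Y : Set (L2 Γ)) {δ : ℝ} (hδ : 0 < δ)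
    (hY : ∀ x ∈ Y, ∀ x' ∈ Y, x ≠ x' → N S (x - x') = δ) : Y.Countable := by
  classical
  by_contra hunc
  have h1 : #Om ≤ #Y := by
    rw [mk_Om, ← Cardinal.succ_aleph0, Order.succ_le_iff, ← not_le,
      Cardinal.le_aleph0_iff_set_countable]
    exact hunc
  obtain ⟨e⟩ := (Cardinal.le_def _ _).1 h1
  let y : Om → L2 Γ := fun α => (e α : L2 Γ)
  have hy : ∀ α β, α < β → N S (y α - y β) = δ := by
    intro α β hαβ
    apply hY _ (e α).2 _ (e β).2
    intro h
    exact hαβ.ne (e.injective (Subtype.ext h))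
  obtain ⟨γ0⟩ : Nonempty Om := by
    rw [← Cardinal.mk_ne_zero_iff, mk_Om]
    exact (Cardinal.aleph_pos 1).ne'
  obtain ⟨α, -, hα⟩ := exists_good_uv S y γ0
  obtain ⟨α', hαα', hα'⟩ := exists_good_uv S y α
  have hself : ∀ β : Om, (∀ γ, uv S y β ∈ closure (uv S y '' Set.Ioi γ)) →
      N S (zv y β) = δ / Real.sqrt 2 := by
    intro β hβ
    have h2 := limit_formula hS hy hβ hβ
    rw [sub_self] at h2
    rw [eq_div_iff (by positivity), h2, N, ← tsum_mul_right]
    congr 1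
    funext n
    rw [map_zero, norm_zero, mul_assoc]
    congr 1
    have h3 : (0 : ℝ) ^ 2 + ‖R (S n) (zv y β)‖ ^ 2 + ‖R (S n) (zv y β)‖ ^ 2 =
        ‖R (S n) (zv y β)‖ ^ 2 * 2 := by ring
    rw [h3, Real.sqrt_mul (by positivity), Real.sqrt_sq (norm_nonneg _)]
  have hN1 := hself α hα
  have hN2 := hself α' hα'
  have hmain := limit_formula hS hy hα hα'
  set v := wv y α - wv y α' with hv
  -- a point of the support
  have hz1 : ∃ γ, zv y α γ ≠ 0 := by
    by_contra hcon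
    push Not at hcon
    have h2 : zv y α = 0 := by
      apply lp.ext
      funext γ
      rw [hcon γ]
      rfl
    rw [h2] at hN1
    have h3 := N_smul S 0 (0 : L2 Γ)
    rw [zero_smul, abs_zero, zero_mul] at h3
    rw [h3] at hN1
    have h4 : 0 < δ / Real.sqrt 2 := by positivity
    exact h4.ne hN1
  obtain ⟨γ, hγ⟩ := hz1
  have hγ2 : zv y α' γ = 0 := by
    apply zv_zero
    refine ⟨α, hαα', ?_⟩
    intro h0
    apply hγ
    rw [zv]
    by_cases h2 : γ ∈ (G y α)ᶜ
    · rw [R_apply_mem _ h2, h0]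
    · exact R_apply_notMem _ h2
  -- the separating set
  obtain ⟨F, hF⟩ := ((hasSum_single (zv y α')).eventually
    (Metric.ball_mem_nhds (zv y α') (abs_pos.2 hγ))).exists
  obtain ⟨n0, hn1, hn2⟩ := hsep γ (F.erase γ) (Finset.notMem_erase γ F)
  have hlt : ‖R (S n0) (zv y α')‖ < ‖R (S n0) (zv y α)‖ := by
    have h2 : R (S n0) (∑ i ∈ F, (lp.single 2 i (zv y α' i) : L2 Γ)) = 0 := by
      apply lp.ext
      funext φ
      rw [R_apply, sum_single_apply]
      change _ = (0 : ℝ)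
      by_cases h3 : φ ∈ S n0
      · rw [if_pos h3]
        by_cases h4 : φ ∈ F
        · rw [if_pos h4]
          by_cases h5 : φ = γ
          · rw [h5, hγ2]
          · exact absurd h3 (hn2 φ (Finset.mem_erase.2 ⟨h5, h4⟩))
        · rw [if_neg h4]
      · rw [if_neg h3]
    have h3 : R (S n0) (zv y α') =
        R (S n0) (zv y α' - ∑ i ∈ F, (lp.single 2 i (zv y α' i) : L2 Γ)) := by
      rw [map_sub, h2, sub_zero]
    calc ‖R (S n0) (zv y α')‖ ≤
          ‖zv y α' - ∑ i ∈ F, (lp.single 2 i (zv y α' i) : L2 Γ)‖ := by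
          rw [h3]
          exact norm_R_le _ _
      _ < |zv y α γ| := by
          rw [← dist_eq_norm, dist_comm]
          exact hF
      _ = |R (S n0) (zv y α) γ| := by rw [R_apply_mem _ hn1]
      _ ≤ ‖R (S n0) (zv y α)‖ := abs_apply_le _ _
  -- the contradiction
  have hsum1 : Summable (fun n => (1 / 2 : ℝ) ^ n * ((‖R (S n) (zv y α)‖ +
      ‖R (S n) (zv y α')‖) / Real.sqrt 2)) := by
    have h2 := ((summable_N S (zv y α)).add (summable_N S (zv y α'))).div_const (Real.sqrt 2)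
    refine h2.congr (fun n => ?_)
    ring
  have hsum2 : Summable (fun n => (1 / 2 : ℝ) ^ n * Real.sqrt (‖R (S n) v‖ ^ 2 +
      ‖R (S n) (zv y α)‖ ^ 2 + ‖R (S n) (zv y α')‖ ^ 2)) := by
    have h2 : Summable (fun n : ℕ => (1 / 2 : ℝ) ^ n *
        Real.sqrt (‖v‖ ^ 2 + ‖zv y α‖ ^ 2 + ‖zv y α'‖ ^ 2)) :=
      (summable_geometric_two).mul_right _
    refine h2.of_nonneg_of_le (fun n => by positivity) (fun n => ?_)
    apply mul_le_mul_of_nonneg_left _ (by positivity)
    apply Real.sqrt_le_sqrt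
    have e1 := norm_R_le (S n) v
    have e2 := norm_R_le (S n) (zv y α)
    have e3 := norm_R_le (S n) (zv y α')
    gcongr
  have hstrict : ∑' n, (1 / 2 : ℝ) ^ n * ((‖R (S n) (zv y α)‖ +
      ‖R (S n) (zv y α')‖) / Real.sqrt 2) < δ := by
    rw [hmain]
    apply hsum1.tsum_lt_tsum (i := n0) _ _ hsum2
    · intro n
      apply mul_le_mul_of_nonneg_left _ (by positivity)
      refine (add_div_sqrt_two_le _ _).trans (Real.sqrt_le_sqrt ?_)
      have := sq_nonneg ‖R (S n) v‖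
      linarith
    · apply mul_lt_mul_of_pos_left _ (by positivity)
      refine (add_div_sqrt_two_lt hlt.ne').trans_le (Real.sqrt_le_sqrt ?_)
      have := sq_nonneg ‖R (S n0) v‖
      linarith
  have heq : ∑' n, (1 / 2 : ℝ) ^ n * ((‖R (S n) (zv y α)‖ +
      ‖R (S n) (zv y α')‖) / Real.sqrt 2) = (N S (zv y α) + N S (zv y α')) / Real.sqrt 2 := by
    rw [N, N, ← (summable_N S (zv y α)).tsum_add (summable_N S (zv y α')), ← tsum_div_const]
    congr 1
    funext n
    ring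
  rw [heq, hN1, hN2] at hstrict
  have h5 : (δ / Real.sqrt 2 + δ / Real.sqrt 2) / Real.sqrt 2 = δ := by
    have h6 : Real.sqrt 2 * Real.sqrt 2 = 2 := Real.mul_self_sqrt (by norm_num)
    field_simp
    rw [sq, h6]
    ring
  rw [h5] at hstrict
  exact lt_irrefl _ hstrict

end Pool.Agent.R278.Equi
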