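import Mathlib

/-!
# Condensation points of functions on the first uncountable ordinal
-/

open Set Filter Topology Cardinal

namespace Pool.Agent.R278.Equi

/-- The first uncountable ordinal as a type. -/
abbrev Om : Type := (Cardinal.aleph 1).ord.ToType

theorem mk_Om : #Om = Cardinal.aleph 1 := by
  unfold Om
  rw [Cardinal.mk_toType, Cardinal.card_ord]

theorem countable_Iio (w : Om) : (Set.Iio w).Countable := by
  have h := Cardinal.mk_Iio_toType_ord_lt w
  rw [← Cardinal.le_aleph0_iff_set_countable]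
  rw [← Cardinal.lt_aleph_one_iff]
  exact h

theorem countable_Iic (w : Om) : (Set.Iic w).Countable := by
  rw [← Set.Iio_union_right]
  exact (countable_Iio w).union (Set.countable_singleton w)

theorem exists_bound (C : Set Om) (hC : C.Countable) : ∃ b : Om, ∀ c ∈ C, c < b := by
  by_contra hcon
  push Not at hcon
  have h1 : (Set.univ : Set Om) ⊆ ⋃ c ∈ C, Set.Iic c := by
    intro b _
    obtain ⟨c, hc, hbc⟩ := hcon b
    exact Set.mem_biUnion hc hbc
  have h2 : (Set.univ : Set Om).Countable :=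
    (hC.biUnion (fun c _ => countable_Iic c)).mono h1
  rw [← Cardinal.le_aleph0_iff_set_countable, Cardinal.mk_univ, mk_Om] at h2
  exact absurd h2 (not_le.2 Cardinal.aleph0_lt_aleph_one)

/-- There are arbitrarily large points which are limits of values at arbitrarily large points. -/
theorem exists_good {X : Type*} [TopologicalSpace X] [TopologicalSpace.PseudoMetrizableSpace X]
    (u : Om → X) (A : Om → Set X) (hA : ∀ ξ, TopologicalSpace.IsSeparable (A ξ))
    (hu : ∀ (ξ : ℕ → Om) (α : Om), StrictMono ξ → (∀ n, ξ n < α) → (∀ η < α, ∃ n, η < ξ n) →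
      u α ∈ closure (⋃ n, A (ξ n))) (γ0 : Om) :
    ∃ α, γ0 < α ∧ ∀ γ, u α ∈ closure (u '' Set.Ioi γ) := by
  classical
  letI := TopologicalSpace.pseudoMetrizableSpacePseudoMetric X
  choose D hDc hD using hA
  -- the bounding function
  have h1 : ∀ ξ : Om, ∃ h : Om, ξ < h ∧ ∀ d ∈ D ξ, ∀ m : ℕ,
      (∃ b, ∀ β, dist (u β) d < 1 / ((m : ℝ) + 1) → β < b) →
      ∀ β, dist (u β) d < 1 / ((m : ℝ) + 1) → β < h := by
    intro ξ
    let B : X → ℕ → Om := fun d m =>
      if h : ∃ b, ∀ β, dist (u β) d < 1 / ((m : ℝ) + 1) → β < b then h.choose else γ0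
    have hc : ({ξ} ∪ ⋃ d ∈ D ξ, ⋃ m : ℕ, {B d m} : Set Om).Countable := by
      refine (Set.countable_singleton ξ).union ?_
      exact (hDc ξ).biUnion (fun d _ => Set.countable_iUnion (fun m => Set.countable_singleton _))
    obtain ⟨h, hh⟩ := exists_bound _ hc
    refine ⟨h, hh ξ (Or.inl rfl), ?_⟩
    intro d hd m hb β hβ
    have h2 : β < B d m := by
      simp only [B, dif_pos hb]
      exact hb.choose_spec β hβ
    refine h2.trans (hh _ (Or.inr ?_))
    simp only [Set.mem_iUnion]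
    exact ⟨d, hd, m, rfl⟩
  choose h hh1 hh2 using h1
  let ξ : ℕ → Om := fun n => Nat.rec (h γ0) (fun _ x => h x) n
  have hξs : ∀ n, ξ (n + 1) = h (ξ n) := fun n => rfl
  have hξ0 : γ0 < ξ 0 := hh1 γ0
  have hmono : StrictMono ξ := strictMono_nat_of_lt_succ (fun n => by
    rw [hξs]
    exact hh1 _)
  obtain ⟨b, hb⟩ := exists_bound (Set.range ξ) (Set.countable_range ξ)
  have hne : {b : Om | ∀ n, ξ n < b}.Nonempty := ⟨b, fun n => hb _ ⟨n, rfl⟩⟩
  have hwf : WellFounded (fun a b : Om => a < b) := wellFounded_lt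
  let α : Om := hwf.min {b : Om | ∀ n, ξ n < b} hne
  have hα1 : ∀ n, ξ n < α := hwf.min_mem {b : Om | ∀ n, ξ n < b} hne
  have hα2 : ∀ η < α, ∃ n, η < ξ n := by
    intro η hη
    by_contra hcon
    push Not at hcon
    have h3 : η ∈ {b : Om | ∀ n, ξ n < b} := fun n => (hmono (Nat.lt_succ_self n)).trans_le
      (hcon (n + 1))
    exact hwf.not_lt_min {b : Om | ∀ n, ξ n < b} h3 hη
  refine ⟨α, hξ0.trans (hα1 0), ?_⟩
  intro γ
  have hcl := hu ξ α hmono hα1 hα2
  rw [Metric.mem_closure_iff] at hcl ⊢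
  intro ε hε
  obtain ⟨m, hm⟩ := exists_nat_one_div_lt (show 0 < ε / 2 by positivity)
  have hm0 : (0 : ℝ) < 1 / ((m : ℝ) + 1) := by positivity
  obtain ⟨a, ha, hda⟩ := hcl (1 / ((m : ℝ) + 1) / 2) (by positivity)
  obtain ⟨n, hn⟩ := Set.mem_iUnion.1 ha
  obtain ⟨d, hd, hdd⟩ := Metric.mem_closure_iff.1 (hD (ξ n) hn) (1 / ((m : ℝ) + 1) / 2)
    (by positivity)
  have hαd : dist (u α) d < 1 / ((m : ℝ) + 1) := by
    calc dist (u α) d ≤ dist (u α) a + dist a d := dist_triangle _ _ _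
      _ < 1 / ((m : ℝ) + 1) / 2 + 1 / ((m : ℝ) + 1) / 2 := add_lt_add hda hdd
      _ = 1 / ((m : ℝ) + 1) := by ring
  by_contra hcon
  push Not at hcon
  obtain ⟨b', hb'⟩ := exists_bound {γ} (Set.countable_singleton γ)
  have h4 : ∀ β, dist (u β) d < 1 / ((m : ℝ) + 1) → β < b' := by
    intro β hβ
    by_contra hlt
    have h5 : γ < β := (hb' γ rfl).trans_le (not_lt.1 hlt)
    have h6 := hcon (u β) ⟨β, h5, rfl⟩
    have h7 : dist (u α) (u β) ≤ dist (u α) d + dist (u β) d := dist_triangle_right _ _ _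
    linarith
  have h8 := hh2 (ξ n) d hd m ⟨b', h4⟩ α hαd
  rw [← hξs] at h8
  exact absurd (hα1 (n + 1)) (not_lt.2 h8.le)

end Pool.Agent.R278.Equi
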